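import Pool.Agent.H39.Newt2.Base

/-! # Project NEWTON2: EVL, evaluation of the truncated sums -/

set_option autoImplicit false

namespace Pool.Newt2

open MvPolynomial Pool.Agent.H39.MonoR Pool.Agent.H75.Mono Pool.Newt

section EVL

variable {σ I : Type} [Fintype σ] [Fintype I]

omit [Fintype I] in
theorem EVL_dot (a : I → σ → ℕ) (u : σ → ℕ) (c : ℕ) (i : I) :
    min (dot u (a i)) c = min (dot (fun j => min (u j) c) (a i)) c := by
  by_cases h : ∃ j, c ≤ u j ∧ a i j ≠ 0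
  · obtain ⟨j, hj, hij⟩ := h
    have h1 : c ≤ dot u (a i) := by
      have : u j * a i j ≤ dot u (a i) :=
        Finset.single_le_sum (f := fun j => u j * a i j) (fun _ _ => Nat.zero_le _)
          (Finset.mem_univ j)
      calc c ≤ u j * 1 := by omega
        _ ≤ u j * a i j := Nat.mul_le_mul_left _ (Nat.one_le_iff_ne_zero.2 hij)
        _ ≤ _ := this
    have h2 : c ≤ dot (fun j => min (u j) c) (a i) := by
      have : min (u j) c * a i j ≤ dot (fun j => min (u j) c) (a i) :=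
        Finset.single_le_sum (f := fun j => min (u j) c * a i j) (fun _ _ => Nat.zero_le _)
          (Finset.mem_univ j)
      calc c ≤ min (u j) c * 1 := by omega
        _ ≤ min (u j) c * a i j := Nat.mul_le_mul_left _ (Nat.one_le_iff_ne_zero.2 hij)
        _ ≤ _ := this
    rw [min_eq_right h1, min_eq_right h2]
  · have : dot u (a i) = dot (fun j => min (u j) c) (a i) := by
      unfold dot
      refine Finset.sum_congr rfl fun j _ => ?_
      by_cases hj : c ≤ u j
      · have : a i j = 0 := by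
          by_contra h0
          exact h ⟨j, hj, h0⟩
        rw [this, mul_zero, mul_zero]
      · show u j * a i j = min (u j) c * a i j
        rw [min_eq_left (by omega)]
    rw [this]

theorem EVL_Nw [Nonempty I] (a : I → σ → ℕ) (u u' : σ → ℕ) (c N : ℕ) (hN : N < c)
    (h : ∀ i, min (dot u (a i)) c = min (dot u' (a i)) c) (h1 : Nw a u = N) : Nw a u' = N := by
  have h2 : ∀ i, N ≤ dot u' (a i) := by
    intro i
    have h3 := Nw_le a u i
    have h4 := h i
    rw [h1] at h3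
    omega
  obtain ⟨i, hi⟩ : ∃ i, i ∈ face a u := by
    obtain ⟨i, hi⟩ := Nat.sInf_mem (s := Set.range fun i => dot u (a i)) (Set.range_nonempty _)
    exact ⟨i, (mem_face_iff a u i).2 hi⟩
  have h5 := (mem_face_iff a u i).1 hi
  have h6 := h i
  have h7 := Nw_le a u' i
  obtain ⟨i', hi'⟩ := Nat.sInf_mem (s := Set.range fun i => dot u' (a i)) (Set.range_nonempty _)
  have h8 := h2 i'
  have h9 : dot u' (a i') = Nw a u' := hi'
  omega

theorem EVL_iff1 [Nonempty I] (a : I → σ → ℕ) (u u' : σ → ℕ) (c N : ℕ) (hN : N < c)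
    (τ : Finset I) (h : ∀ i, min (dot u (a i)) c = min (dot u' (a i)) c)
    (h1 : face a u = (τ : Set I) ∧ Nw a u = N) : face a u' = (τ : Set I) ∧ Nw a u' = N := by
  have h2 := EVL_Nw a u u' c N hN h h1.2
  refine ⟨?_, h2⟩
  rw [← h1.1]
  ext i
  rw [mem_face_iff, mem_face_iff, h2, h1.2]
  have := h i
  omega

theorem EVL_iff [Nonempty I] (a : I → σ → ℕ) (u : σ → ℕ) (c N : ℕ) (hN : N < c) (τ : Finset I) :
    (face a u = (τ : Set I) ∧ Nw a u = N) ↔
      (face a (fun j => min (u j) c) = (τ : Set I) ∧ Nw a (fun j => min (u j) c) = N) :=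
  ⟨EVL_iff1 a _ _ c N hN τ (EVL_dot a u c), EVL_iff1 a _ _ c N hN τ fun i => (EVL_dot a u c i).symm⟩

omit [Fintype I] in
theorem EVL_T (x : ℝˣ) (n : ℤ) : ev x (LaurentPolynomial.T n) = (x : ℝ) ^ n := by
  unfold ev
  rw [LaurentPolynomial.eval₂_T, Units.val_zpow_eq_zpow_val]

theorem EVL_term (x : ℝ) (hx : 1 < x) (F s n r : ℕ) (h : F + r ≤ n) :
    x ^ ((F : ℤ) - (s : ℤ)) * (x - 1) ^ (n - F - r) =
      (x - 1) ^ ((n : ℤ) - (r : ℤ)) * ((x⁻¹) ^ s * ((1 - x⁻¹)⁻¹) ^ F) := by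
  have h0 : x ≠ 0 := by positivity
  have h1 : x - 1 ≠ 0 := by linarith [hx] |> fun h : x - 1 > 0 => h.ne'
  have h2 : (1 - x⁻¹)⁻¹ = x / (x - 1) := by
    field_simp
  have h3 : ((n - F - r : ℕ) : ℤ) = (n : ℤ) - r - F := by omega
  rw [h2, ← zpow_natCast (x - 1) (n - F - r), h3, zpow_sub₀ h0, zpow_sub₀ h1, div_pow, inv_pow,
    zpow_natCast, zpow_natCast, zpow_natCast]
  field_simp

theorem EVL_first (hGeo : SGeo) [Nonempty I] (a : I → σ → ℕ) (τ : Finset I) (N c : ℕ)
    (hN : N < c) (x : ℝˣ) (hx : 1 < (x : ℝ)) : ev x (Fc a c τ N) =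
      ((x : ℝ) - 1) ^ ((Fintype.card σ : ℤ) - (rk a τ : ℤ)) * Uu a (↑(x⁻¹) : ℝ) τ N := by
  classical
  have hX0 : 0 < (↑(x⁻¹) : ℝ) := by
    rw [Units.val_inv_eq_inv_val]; positivity
  have hX1 : (↑(x⁻¹) : ℝ) < 1 := by
    rw [Units.val_inv_eq_inv_val]; exact inv_lt_one_of_one_lt₀ hx
  obtain ⟨_, h2⟩ := hGeo σ c (fun u => if face a u = (τ : Set I) ∧ Nw a u = N then 1 else 0)
    (fun u => by simp only [EVL_iff a u c N hN τ]) _ hX0 hX1
  have h3 : Uu a (↑(x⁻¹) : ℝ) τ N = ∑' u : σ → ℕ,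
      (if face a u = (τ : Set I) ∧ Nw a u = N then (1 : ℝ) else 0) * (↑(x⁻¹) : ℝ) ^ (∑ l, u l) := by
    unfold Uu
    refine tsum_congr fun u => ?_
    by_cases h : face a u = (τ : Set I) ∧ Nw a u = N
    · rw [if_pos h, if_pos h, one_mul]
    · rw [if_neg h, if_neg h, zero_mul]
  rw [h3, h2]
  unfold Fc
  rw [map_sum, Finset.sum_filter, Finset.mul_sum]
  refine Finset.sum_congr rfl fun u _ => ?_
  by_cases h : face a u = (τ : Set I) ∧ Nw a u = N
  · rw [if_pos h, if_pos h, map_mul, map_pow, map_sub, map_one, EVL_T, EVL_T, zpow_one, one_mul,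
      Units.val_inv_eq_inv_val]
    refine EVL_term x hx _ _ _ _ (rk_le a τ _ fun j hj i hi => ?_)
    by_contra h0
    have h4 : i ∈ face a u := by rw [h.1]; exact hi
    have h5 := (mem_face_iff a u i).1 h4
    have h6 : c ≤ u j := (Finset.mem_filter.1 hj).2
    have h7 : u j * a i j ≤ dot u (a i) :=
      Finset.single_le_sum (f := fun j => u j * a i j) (fun _ _ => Nat.zero_le _)
        (Finset.mem_univ j)
    have h8 : u j * 1 ≤ u j * a i j := Nat.mul_le_mul_left _ (Nat.one_le_iff_ne_zero.2 h0)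
    rw [h.2] at h5
    omega
  · rw [if_neg h, if_neg h, zero_mul, zero_mul, mul_zero]

end EVL

theorem sEvl (hGeo : SGeo) (hLpz : SLpz) : SEvl := by
  intro σ I _ _ _ a τ N c hN
  refine ⟨fun x hx => EVL_first hGeo a τ N c hN x hx, ?_⟩
  refine sub_eq_zero.1 (hLpz _ fun x hx => ?_)
  rw [map_sub, EVL_first hGeo a τ N c hN x hx,
    EVL_first hGeo a τ N (N + 1) (Nat.lt_succ_self N) x hx, sub_self]

end Pool.Newt2
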