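import Pool.Agent.H39.Newt2.Base

/-! # Project NEWTON2: EVQ, the lattice sums of `phi` -/

set_option autoImplicit false

namespace Pool.Newt2

open MvPolynomial Pool.Agent.H39.MonoR Pool.Agent.H75.Mono Pool.Newt

section EVQ

variable {σ I : Type} [Fintype σ] [Fintype I]

/-- summability of `X^|u|` -/
theorem EVQ_summable (hSum : SSum) (X : ℝ) (h0 : 0 < X) (h1 : X < 1) :
    Summable fun u : σ → ℕ => X ^ (∑ l, u l) := by
  have h := hSum σ PEmpty (fun i => i.elim) X h0 h1 0 (fun _ v => if 0 ≤ v then 1 else 0)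
    (fun ξ => ⟨fun v hv => by
      show (if 0 ≤ v then (1 : ℝ) else 0) = 0
      rw [if_neg (by simpa using hv)], fun v hv => by
      show (if 0 ≤ v then (1 : ℝ) else 0) = if (0 : ℤ) ≤ ((0 : ℕ) : ℤ) then 1 else 0
      rw [if_pos (by simpa using hv), if_pos (by simp)]⟩) 0
  have hinj : Function.Injective fun (u : σ → ℕ) (l : σ) => (u l : ℤ) := by
    intro u u' huu
    funext l
    have h : (u l : ℤ) = (u' l : ℤ) := congrFun huu l
    exact_mod_cast h
  have h2 := h.comp_injective hinj
  refine h2.congr fun u => ?_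
  show (∏ ξ : Co σ PEmpty, (if 0 ≤ lam (fun i : PEmpty => i.elim) (fun l => (u l : ℤ)) 0 ξ
    then (1 : ℝ) else 0)) * X ^ (∑ l, (u l : ℤ)) = X ^ (∑ l, u l)
  rw [Finset.prod_eq_one, one_mul, ← Nat.cast_sum, zpow_natCast]
  intro ξ _
  rw [if_pos]
  rcases ξ with _ | l | i
  · exact le_rfl
  · exact Int.natCast_nonneg _
  · exact i.elim

theorem EVQ_summable_ite (hSum : SSum) (X : ℝ) (h0 : 0 < X) (h1 : X < 1) (p : (σ → ℕ) → Prop)
    [DecidablePred p] : Summable fun u : σ → ℕ => if p u then X ^ (∑ l, u l) else 0 := by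
  refine Summable.of_nonneg_of_le (fun u => ?_) (fun u => ?_) (EVQ_summable hSum X h0 h1)
  · split_ifs
    · positivity
    · exact le_rfl
  · split_ifs
    · exact le_rfl
    · positivity

omit [Fintype I] in
theorem EVQ_lam (a : I → σ → ℕ) (u : σ → ℕ) (N : ℕ) (i : I) :
    lam a (fun l => (u l : ℤ)) N (some (Sum.inr i)) = (dot u (a i) : ℤ) - N := lam_nat a u N i

open Classical in
/-- the pointwise identity -/
theorem EVQ_point [Nonempty I] (a : I → σ → ℕ) (x : ℝ) (Z Y : Finset I) (u : σ → ℕ) (N : ℕ) :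
    ∏ i, phi (σ := σ) x Z Y (some (Sum.inr i)) ((dot u (a i) : ℤ) - N) =
      (if Z = ∅ then (if N < Nw a u then 1 else 0) else 0) + ∑ P ∈ (Y \ Z).powerset,
        (-1 / (x - 1)) ^ P.card *
          (if face a u = ((Z ∪ P : Finset I) : Set I) ∧ Nw a u = N then 1 else 0) := by
  have hphi : ∀ i v, phi (σ := σ) x Z Y (some (Sum.inr i)) v =
      if i ∈ Z then (if v = 0 then 1 else 0)
      else if i ∈ Y then (if v < 0 then 0 else if v = 0 then -1 / (x - 1) else 1)
      else (if 0 < v then 1 else 0) := fun i v => rfl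
  by_cases hA : ∃ i, dot u (a i) < N
  · obtain ⟨i, hi⟩ := hA
    have h1 : phi (σ := σ) x Z Y (some (Sum.inr i)) ((dot u (a i) : ℤ) - N) = 0 := by
      rw [hphi]
      by_cases hiZ : i ∈ Z
      · rw [if_pos hiZ, if_neg (by omega)]
      · rw [if_neg hiZ]
        by_cases hiY : i ∈ Y
        · rw [if_pos hiY, if_pos (by omega)]
        · rw [if_neg hiY, if_neg (by omega)]
    have h2 := Nw_le a u i
    rw [Finset.prod_eq_zero (Finset.mem_univ i) h1, if_neg (show ¬ N < Nw a u by omega), ite_self,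
      zero_add, Finset.sum_eq_zero]
    intro P _
    rw [if_neg (fun h => by omega), mul_zero]
  push Not at hA
  by_cases hB : ∃ i ∈ Z, N < dot u (a i)
  · obtain ⟨i, hiZ, hi⟩ := hB
    have h1 : phi (σ := σ) x Z Y (some (Sum.inr i)) ((dot u (a i) : ℤ) - N) = 0 := by
      rw [hphi, if_pos hiZ, if_neg (by omega)]
    rw [Finset.prod_eq_zero (Finset.mem_univ i) h1, if_neg (Finset.ne_empty_of_mem hiZ),
      zero_add, Finset.sum_eq_zero]
    intro P _
    rw [if_neg, mul_zero]
    rintro ⟨h3, h4⟩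
    have h5 : i ∈ face a u := by
      rw [h3]
      exact Finset.mem_coe.2 (Finset.mem_union_left _ hiZ)
    have h6 := (mem_face_iff a u i).1 h5
    omega
  push Not at hB
  by_cases hC : ∃ i, i ∉ Z ∧ i ∉ Y ∧ dot u (a i) = N
  · obtain ⟨i, hiZ, hiY, hi⟩ := hC
    have h1 : phi (σ := σ) x Z Y (some (Sum.inr i)) ((dot u (a i) : ℤ) - N) = 0 := by
      rw [hphi, if_neg hiZ, if_neg hiY, if_neg (by omega)]
    have h2 := Nw_le a u i
    rw [Finset.prod_eq_zero (Finset.mem_univ i) h1, if_neg (show ¬ N < Nw a u by omega), ite_self,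
      zero_add, Finset.sum_eq_zero]
    intro P hP
    rw [if_neg, mul_zero]
    rintro ⟨h3, h4⟩
    have h5 : i ∈ face a u := (mem_face_iff a u i).2 (by omega)
    rw [h3, Finset.mem_coe, Finset.mem_union] at h5
    rcases h5 with h5 | h5
    · exact hiZ h5
    · exact hiY (Finset.mem_sdiff.1 (Finset.mem_powerset.1 hP h5)).1
  push Not at hC
  have hT : ∀ i, phi (σ := σ) x Z Y (some (Sum.inr i)) ((dot u (a i) : ℤ) - N) =
      if i ∈ (Finset.univ.filter fun i => dot u (a i) = N) \ Z then -1 / (x - 1) else 1 := by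
    intro i
    have h1 := hA i
    have hmem : i ∈ (Finset.univ.filter fun i => dot u (a i) = N) \ Z ↔
        dot u (a i) = N ∧ i ∉ Z := by
      simp
    rw [hphi]
    by_cases hiZ : i ∈ Z
    · have h2 := hB i hiZ
      rw [if_pos hiZ, if_pos (by omega), if_neg (fun h => (hmem.1 h).2 hiZ)]
    · rw [if_neg hiZ]
      by_cases hiN : dot u (a i) = N
      · have hiY : i ∈ Y := by
          by_contra h2
          exact hC i hiZ h2 hiN
        rw [if_pos hiY, if_neg (by omega), if_pos (by omega), if_pos (hmem.2 ⟨hiN, hiZ⟩)]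
      · rw [if_neg (fun h => hiN (hmem.1 h).1)]
        by_cases hiY : i ∈ Y
        · rw [if_pos hiY, if_neg (by omega), if_neg (by omega)]
        · rw [if_neg hiY, if_pos (by omega)]
  have hLHS : ∏ i, phi (σ := σ) x Z Y (some (Sum.inr i)) ((dot u (a i) : ℤ) - N) =
      (-1 / (x - 1)) ^ ((Finset.univ.filter fun i => dot u (a i) = N) \ Z).card := by
    rw [Finset.prod_congr rfl fun i _ => hT i, Finset.prod_ite, Finset.prod_const_one, mul_one,
      Finset.prod_const]
    congr 2
    ext i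
    simp
  rw [hLHS]
  by_cases hE : (Finset.univ.filter fun i => dot u (a i) = N) = ∅
  · -- all `dot u (a i) > N`
    have h1 : ∀ i, dot u (a i) ≠ N := by
      intro i hi
      have : i ∈ (Finset.univ.filter fun i => dot u (a i) = N) :=
        Finset.mem_filter.2 ⟨Finset.mem_univ _, hi⟩
      rw [hE] at this
      exact absurd this (Finset.notMem_empty _)
    have h2 : N < Nw a u := by
      obtain ⟨i, hi⟩ := Nat.sInf_mem (s := Set.range fun i => dot u (a i)) (Set.range_nonempty _)
      have h3 : dot u (a i) = Nw a u := hi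
      have h4 := hA i
      have h5 := h1 i
      omega
    have h3 : Z = ∅ := by
      rw [Finset.eq_empty_iff_forall_notMem]
      intro i hi
      have h4 := hA i
      have h5 := hB i hi
      exact h1 i (by omega)
    rw [hE, Finset.empty_sdiff, Finset.card_empty, pow_zero, if_pos h3, if_pos h2,
      Finset.sum_eq_zero, add_zero]
    intro P _
    rw [if_neg (fun h => by omega), mul_zero]
  · obtain ⟨i0, hi0⟩ := Finset.nonempty_iff_ne_empty.2 hE
    have h0 := (Finset.mem_filter.1 hi0).2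
    have h2 : Nw a u = N := by
      obtain ⟨i, hi⟩ := Nat.sInf_mem (s := Set.range fun i => dot u (a i)) (Set.range_nonempty _)
      have h3 : dot u (a i) = Nw a u := hi
      have h4 := hA i
      have h5 := Nw_le a u i0
      omega
    have h3 : face a u = ((Finset.univ.filter fun i => dot u (a i) = N : Finset I) : Set I) := by
      ext i
      rw [mem_face_iff, h2, Finset.mem_coe, Finset.mem_filter]
      exact ⟨fun h => ⟨Finset.mem_univ _, h⟩, fun h => h.2⟩
    have h4 : Z ⊆ (Finset.univ.filter fun i => dot u (a i) = N) := by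
      intro i hi
      have h4 := hA i
      have h5 := hB i hi
      exact Finset.mem_filter.2 ⟨Finset.mem_univ _, by omega⟩
    rw [if_neg (show ¬ N < Nw a u by omega), ite_self, zero_add,
      Finset.sum_eq_single ((Finset.univ.filter fun i => dot u (a i) = N) \ Z)]
    · rw [if_pos, mul_one]
      refine ⟨?_, h2⟩
      rw [Finset.union_sdiff_of_subset h4, h3]
    · intro P hP hne
      rw [if_neg, mul_zero]
      rintro ⟨h5, _⟩
      apply hne
      rw [h3, Finset.coe_inj] at h5
      rw [h5]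
      ext i
      rw [Finset.mem_sdiff, Finset.mem_union]
      constructor
      · intro h
        exact ⟨Or.inr h, (Finset.mem_sdiff.1 (Finset.mem_powerset.1 hP h)).2⟩
      · rintro ⟨h | h, h'⟩
        · exact absurd h h'
        · exact h
    · intro h
      exfalso
      apply h
      rw [Finset.mem_powerset]
      intro i hi
      rw [Finset.mem_sdiff] at hi ⊢
      refine ⟨?_, hi.2⟩
      by_contra h5
      exact hC i hi.2 h5 (Finset.mem_filter.1 hi.1).2

open Classical in
theorem EVQ_coeff (hSum : SSum) [Nonempty I] (a : I → σ → ℕ) (x X : ℝ) (h0 : 0 < X) (h1 : X < 1)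
    (Z Y : Finset I) (N : ℕ) (hN : N ≠ 0) :
    ∑' u : σ → ℤ, (∏ ξ, phi x Z Y ξ (lam a u N ξ)) * X ^ (∑ l, u l) =
      (if Z = ∅ then ∑' u : σ → ℕ, (if N < Nw a u then X ^ (∑ l, u l) else 0) else 0) +
      ∑ P ∈ (Y \ Z).powerset, (-1 / (x - 1)) ^ P.card * Uu a X (Z ∪ P) N := by
  have hinj : Function.Injective fun (u : σ → ℕ) (l : σ) => (u l : ℤ) := by
    intro u u' huu
    funext l
    have h : (u l : ℤ) = (u' l : ℤ) := congrFun huu l
    exact_mod_cast h
  have h2 : ∑' u : σ → ℤ, (∏ ξ, phi x Z Y ξ (lam a u N ξ)) * X ^ (∑ l, u l) =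
      ∑' u : σ → ℕ, (∏ ξ, phi x Z Y ξ (lam a (fun l => (u l : ℤ)) N ξ)) *
        X ^ (∑ l, (u l : ℤ)) := by
    refine (hinj.tsum_eq (f := fun u : σ → ℤ =>
      (∏ ξ, phi x Z Y ξ (lam a u N ξ)) * X ^ (∑ l, u l)) ?_).symm
    intro u hu
    have h3 : ∀ l, 0 ≤ u l := by
      intro l
      by_contra h4
      apply hu
      show (∏ ξ, phi x Z Y ξ (lam a u N ξ)) * X ^ (∑ l, u l) = 0
      rw [Finset.prod_eq_zero (Finset.mem_univ (some (Sum.inl l))), zero_mul]
      show (if 0 ≤ u l then (1 : ℝ) else 0) = 0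
      rw [if_neg h4]
    refine ⟨fun l => (u l).toNat, ?_⟩
    funext l
    exact Int.toNat_of_nonneg (h3 l)
  have h3 : ∀ u : σ → ℕ, (∏ ξ, phi x Z Y ξ (lam a (fun l => (u l : ℤ)) N ξ)) *
      X ^ (∑ l, (u l : ℤ)) = (if Z = ∅ then (if N < Nw a u then X ^ (∑ l, u l) else 0) else 0) +
        ∑ P ∈ (Y \ Z).powerset, (-1 / (x - 1)) ^ P.card *
          (if face a u = ((Z ∪ P : Finset I) : Set I) ∧ Nw a u = N then X ^ (∑ l, u l)
            else 0) := by
    intro u
    have e1 : X ^ (∑ l, (u l : ℤ)) = X ^ (∑ l, u l) := by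
      rw [← Nat.cast_sum, zpow_natCast]
    have e2 : ∏ ξ, phi x Z Y ξ (lam a (fun l => (u l : ℤ)) N ξ) =
        ∏ i, phi (σ := σ) x Z Y (some (Sum.inr i)) ((dot u (a i) : ℤ) - N) := by
      rw [Fintype.prod_option, Fintype.prod_sum_type]
      have e3 : phi (σ := σ) (I := I) x Z Y none
          (lam a (fun l => (u l : ℤ)) (N : ℤ) none) = 1 := by
        show (if (1 : ℤ) ≤ (N : ℤ) then (1 : ℝ) else 0) = 1
        rw [if_pos (by omega)]
      have e4 : ∏ l : σ, phi (σ := σ) (I := I) x Z Y (some (Sum.inl l))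
          (lam a (fun l => (u l : ℤ)) (N : ℤ) (some (Sum.inl l))) = 1 := by
        refine Finset.prod_eq_one fun l _ => ?_
        show (if (0 : ℤ) ≤ (u l : ℤ) then (1 : ℝ) else 0) = 1
        rw [if_pos (Int.natCast_nonneg _)]
      rw [e3, e4, one_mul, one_mul]
      refine Finset.prod_congr rfl fun i _ => ?_
      rw [EVQ_lam]
    rw [e1, e2, EVQ_point, add_mul, Finset.sum_mul]
    congr 1
    · split_ifs
      · rw [one_mul]
      · rw [zero_mul]
      · rw [zero_mul]
    · refine Finset.sum_congr rfl fun P _ => ?_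
      split_ifs
      · ring
      · ring
  rw [h2, tsum_congr h3, Summable.tsum_add, Summable.tsum_finsetSum]
  · congr 1
    · split_ifs
      · rfl
      · exact tsum_zero
    · refine Finset.sum_congr rfl fun P _ => ?_
      rw [tsum_mul_left]
      rfl
  · intro P _
    exact (EVQ_summable_ite hSum X h0 h1 _).mul_left _
  · split_ifs
    · exact EVQ_summable_ite hSum X h0 h1 _
    · exact summable_zero
  · refine summable_sum fun P _ => ?_
    exact (EVQ_summable_ite hSum X h0 h1 _).mul_left _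

open Classical in
/-- the weights with `N(u) = N` -/
theorem EVQ_step (hSum : SSum) [Nonempty I] (a : I → σ → ℕ) (X : ℝ) (h0 : 0 < X) (h1 : X < 1)
    (N : ℕ) : ∑' u : σ → ℕ, (if N < Nw a u then X ^ (∑ l, u l) else 0) =
      ∑' u : σ → ℕ, (if N + 1 < Nw a u then X ^ (∑ l, u l) else 0) +
        ∑ τ : Finset I, Uu a X τ (N + 1) := by
  have h2 : ∀ u : σ → ℕ, (if N < Nw a u then X ^ (∑ l, u l) else 0) =
      (if N + 1 < Nw a u then X ^ (∑ l, u l) else 0) + ∑ τ : Finset I,
        (if face a u = (τ : Set I) ∧ Nw a u = N + 1 then X ^ (∑ l, u l) else 0) := by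
    intro u
    by_cases h3 : Nw a u = N + 1
    · rw [if_pos (by omega), if_neg (by omega), zero_add,
        Finset.sum_eq_single (Finset.univ.filter fun i => i ∈ face a u)]
      · rw [if_pos]
        refine ⟨?_, h3⟩
        ext i
        simp
      · intro τ _ hne
        rw [if_neg]
        rintro ⟨h4, _⟩
        apply hne
        ext i
        rw [Finset.mem_filter, h4]
        simp
      · intro h
        exact absurd (Finset.mem_univ _) h
    · rw [Finset.sum_eq_zero (fun τ _ => if_neg fun h => h3 h.2), add_zero]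
      by_cases h4 : N < Nw a u
      · rw [if_pos h4, if_pos (by omega)]
      · rw [if_neg h4, if_neg (by omega)]
  rw [tsum_congr h2, Summable.tsum_add (EVQ_summable_ite hSum X h0 h1 _)
    (summable_sum fun τ _ => EVQ_summable_ite hSum X h0 h1 _),
    Summable.tsum_finsetSum fun τ _ => EVQ_summable_ite hSum X h0 h1 _]
  rfl

end EVQ

/-- EVQ -/
theorem sEvq (hSum : SSum) : SEvq := by
  classical
  intro σ I _ _ _ a x hx
  have h0 : 0 < (↑(x⁻¹) : ℝ) := by
    rw [Units.val_inv_eq_inv_val]; positivity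
  have h1 : (↑(x⁻¹) : ℝ) < 1 := by
    rw [Units.val_inv_eq_inv_val]; exact inv_lt_one_of_one_lt₀ hx
  refine ⟨fun Z Y => ?_, fun N hN => ?_⟩
  · ext N
    rw [map_add, map_sum]
    by_cases hN : N = 0
    · subst hN
      have e1 : PowerSeries.coeff 0 (Ser a (↑(x⁻¹) : ℝ) (phi (x : ℝ) Z Y)) = 0 := by
        rw [Ser, PowerSeries.coeff_mk]
        refine (tsum_congr fun u => ?_).trans tsum_zero
        rw [Finset.prod_eq_zero (Finset.mem_univ none), zero_mul]
        show (if (1 : ℤ) ≤ ((0 : ℕ) : ℤ) then (1 : ℝ) else 0) = 0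
        rw [if_neg (by simp)]
      rw [e1, Finset.sum_eq_zero, add_zero]
      · split_ifs
        · rw [As, PowerSeries.coeff_mk, if_pos rfl]
        · rw [map_zero]
      · intro P _
        rw [PowerSeries.coeff_C_mul, Us, PowerSeries.coeff_mk, if_pos rfl, mul_zero]
    · rw [Ser, PowerSeries.coeff_mk, EVQ_coeff hSum a (x : ℝ) _ h0 h1 Z Y N hN]
      congr 1
      · split_ifs
        · rw [As, PowerSeries.coeff_mk, if_neg hN]
        · rw [map_zero]
      · refine Finset.sum_congr rfl fun P _ => ?_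
        rw [PowerSeries.coeff_C_mul, Us, PowerSeries.coeff_mk, if_neg hN]
  · obtain ⟨M, rfl⟩ : ∃ M, N = M + 1 := ⟨N - 1, by omega⟩
    have hM : M ≠ 0 := by omega
    rw [sub_mul, one_mul, map_sub, PowerSeries.coeff_succ_X_mul, As, PowerSeries.coeff_mk,
      PowerSeries.coeff_mk, if_neg (Nat.succ_ne_zero M), if_neg hM,
      EVQ_step hSum a _ h0 h1 M]
    have e2 : ∀ τ : Finset I, PowerSeries.coeff (M + 1) (Us a (↑(x⁻¹) : ℝ) τ) =
        Uu a (↑(x⁻¹) : ℝ) τ (M + 1) := by
      intro τ
      rw [Us, PowerSeries.coeff_mk, if_neg (Nat.succ_ne_zero M)]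
    rw [Finset.sum_congr rfl fun τ _ => e2 τ]
    ring

end Pool.Newt2
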